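import Mathlib
import Pool.Agent.Hhelper98.EdgePathReg

/-!
# Almost all graphs are edge-path-regular: multigraph form with an explicit rate

Own statement beside the frozen statement S19277.  Edge-path-regularity is written out literally:
the `m |E|` edges of the multigraph `G^[m]` (pairs of an edge of `G` and a label in `Fin m`) are
partitioned into the edges of shortest paths, exactly `k` of them between any two distinct vertices.
-/

set_option autoImplicit false

open Filter

namespace Pool.Agent.Results.MP_3e5c62_pr.MultigraphPartition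

/-- The unordered pairs of distinct vertices, written with the smaller vertex first. -/
abbrev Pair (n : ℕ) : Type := {q : Fin n × Fin n // q.1 < q.2}

/-- The `m |E|` edges of the multigraph `G^[m]`: an edge of `G` together with the number of one of its
`m` parallel copies. -/
abbrev MultiEdge {n : ℕ} (G : SimpleGraph (Fin n)) (m : ℕ) : Type := G.edgeSet × Fin m

/-- A family of walks in `G`, `k` of them for every pair of distinct vertices. -/
abbrev Family {n : ℕ} (G : SimpleGraph (Fin n)) (k : ℕ) : Type :=
  ∀ q : Pair n, Fin k → G.Walk q.1.1 q.1.2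

/-- The steps of a family of walks: a pair of vertices, the number of a walk joining them, and the
number of a step of that walk. -/
abbrev Step {n : ℕ} {G : SimpleGraph (Fin n)} {k : ℕ} (P : Family G k) : Type :=
  Σ x : Pair n × Fin k, Fin (P x.1 x.2).edges.length

/-- The edge of `G` traversed by a step. -/
def edgeAt {n : ℕ} {G : SimpleGraph (Fin n)} {k : ℕ} (P : Family G k) (y : Step P) : G.edgeSet :=
  ⟨(P y.1.1 y.1.2).edges.get y.2,
    (P y.1.1 y.1.2).edges_subset_edgeSet (List.get_mem _ _)⟩

/-- `G` is edge-path-regular: there are `m, k ≥ 1`, for every pair of distinct vertices `k` shortest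
paths of `G` joining them, and a choice of a parallel copy (`copy y : Fin m`) for every step `y` of these
paths, such that every edge of the multigraph `G^[m]` is used exactly once. -/
def EdgePathRegular {n : ℕ} (G : SimpleGraph (Fin n)) : Prop :=
  ∃ m k : ℕ, 1 ≤ m ∧ 1 ≤ k ∧ ∃ P : Family G k,
    (∀ (q : Pair n) (t : Fin k), (P q t).IsPath ∧ (P q t).length = G.dist q.1.1 q.1.2) ∧
    ∃ copy : Step P → Fin m,
      Function.Bijective (fun y : Step P => ((edgeAt P y, copy y) : MultiEdge G m))

/-- The fraction of the `2 ^ (n choose 2)` graphs on `n` labelled vertices which are edge-path-regular. -/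
noncomputable def fraction (n : ℕ) : ℝ :=
  (Nat.card {G : SimpleGraph (Fin n) // EdgePathRegular G} : ℝ) / (2 : ℝ) ^ (n.choose 2)

lemma card_places {α : Type*} [DecidableEq α] (l : List α) (a : α) :
    Fintype.card {i : Fin l.length // l.get i = a} = l.count a := by
  rw [Fintype.card_subtype]
  induction l with
  | nil => simp
  | cons b l ih =>
    rw [List.count_cons]
    rw [← ih]
    simp only [List.length_cons]
    rw [Finset.card_filter, Finset.card_filter, Fin.sum_univ_succ, add_comm]
    have h1 : (if (b :: l).get 0 = a then 1 else 0) = if (b == a) = true then 1 else 0 := by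
      by_cases h : b = a
      · simp [h]
      · simp [h]
    rw [h1]
    congr 1

lemma fibre {n : ℕ} {G : SimpleGraph (Fin n)} {k : ℕ} (P : Family G k) (e : G.edgeSet) :
    Nat.card {y : Step P // edgeAt P y = e}
      = ∑ x : Pair n × Fin k, (P x.1 x.2).edges.count (e : Sym2 (Fin n)) := by
  classical
  have e1 : {y : Step P // edgeAt P y = e} ≃
      Σ x : Pair n × Fin k, {i : Fin (P x.1 x.2).edges.length // (P x.1 x.2).edges.get i = e} :=
    { toFun := fun y => ⟨y.1.1, y.1.2, by
        have := y.2
        unfold edgeAt at this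
        exact congrArg Subtype.val this⟩
      invFun := fun z => ⟨⟨z.1, z.2.1⟩, Subtype.ext z.2.2⟩
      left_inv := fun y => rfl
      right_inv := fun z => rfl }
  rw [Nat.card_congr e1, Nat.card_eq_fintype_card, Fintype.card_sigma]
  refine Finset.sum_congr rfl (fun x _ => ?_)
  exact card_places _ _

lemma of_pathReg {n : ℕ} {G : SimpleGraph (Fin n)} (h : Hhelper98.EPR.PathReg G) :
    EdgePathRegular G := by
  classical
  obtain ⟨m, k, hm, hk, P, hP, hc⟩ := h
  let Q : Family G k := fun q t => P q.1.1 q.1.2 t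
  have hfib : ∀ e : G.edgeSet, Nat.card {y : Step Q // edgeAt Q y = e} = m := by
    intro e
    rw [fibre, ← hc e.1 e.2]
    rw [Fintype.sum_prod_type]
    have h1 : ∑ q : Pair n, ∑ t : Fin k, (Q q t).edges.count (e : Sym2 (Fin n))
        = ∑ p ∈ (Finset.univ : Finset (Fin n × Fin n)).filter (fun p => p.1 < p.2),
          ∑ t : Fin k, (P p.1 p.2 t).edges.count (e : Sym2 (Fin n)) := by
      rw [Finset.sum_subtype ((Finset.univ : Finset (Fin n × Fin n)).filter (fun p => p.1 < p.2))
        (p := fun p : Fin n × Fin n => p.1 < p.2) (by simp)]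
    rw [h1, Finset.sum_filter, Fintype.sum_prod_type]
    refine Finset.sum_congr rfl (fun u _ => ?_)
    rw [Finset.sum_filter]
  have hne : ∀ e : G.edgeSet, Nonempty ({y : Step Q // edgeAt Q y = e} ≃ Fin m) := by
    intro e
    refine ⟨(Finite.equivFinOfCardEq (hfib e))⟩
  have F : ∀ e : G.edgeSet, {y : Step Q // edgeAt Q y = e} ≃ Fin m := fun e => Classical.choice (hne e)
  refine ⟨m, k, hm, hk, Q, fun q t => hP q.1.1 q.1.2 q.2 t, fun y => F (edgeAt Q y) ⟨y, rfl⟩, ?_⟩
  constructor
  · intro y y' hyy
    have h1 : edgeAt Q y = edgeAt Q y' := congrArg Prod.fst hyy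
    have h2 : F (edgeAt Q y) ⟨y, rfl⟩ = F (edgeAt Q y') ⟨y', rfl⟩ := congrArg Prod.snd hyy
    have h3 : ∀ (e : G.edgeSet) (he : edgeAt Q y' = e),
        F (edgeAt Q y') ⟨y', rfl⟩ = F e ⟨y', he⟩ := by
      intro e he
      subst he
      rfl
    rw [h3 _ h1.symm] at h2
    exact congrArg Subtype.val ((F _).injective h2)
  · rintro ⟨e, c⟩
    obtain ⟨⟨y, hy⟩, hyc⟩ := (F e).surjective c
    refine ⟨y, ?_⟩
    subst hy
    exact Prod.ext rfl hyc

lemma fraction_le_one (n : ℕ) : fraction n ≤ 1 := by
  unfold fraction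
  rw [div_le_one (by positivity)]
  have : Nat.card {G : SimpleGraph (Fin n) // EdgePathRegular G} ≤ Nat.card (SimpleGraph (Fin n)) :=
    Nat.card_le_card_of_injective (fun G => G.1) Subtype.val_injective
  rw [Hhelper98.EPR.card_graph] at this
  exact_mod_cast this

lemma lower {n : ℕ} (hn : 1000000 ≤ n) :
    1 - 384 * (n : ℝ) ^ 5 * Real.exp (- ((n - 5 : ℝ) * (1 / 200000) ^ 2 / 4)) ≤ fraction n := by
  classical
  unfold fraction
  rw [le_div_iff₀ (by positivity)]
  have h1 := Hhelper98.EPR.bad_all hn
  set Bad := {G : SimpleGraph (Fin n) // ¬ ∀ S : Finset (Fin n), S.card ≤ 5 → ∀ T ⊆ S,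
    |(Hhelper98.EPR.cnt G S T : ℝ) - n / 2 ^ S.card| ≤ (1 / 100000 : ℝ) * n} with hBad
  have h2 : Nat.card (SimpleGraph (Fin n))
      ≤ Nat.card ({G : SimpleGraph (Fin n) // EdgePathRegular G} ⊕ Bad) := by
    apply Nat.card_le_card_of_injective (fun G : SimpleGraph (Fin n) =>
      if h : ∀ S : Finset (Fin n), S.card ≤ 5 → ∀ T ⊆ S,
        |(Hhelper98.EPR.cnt G S T : ℝ) - n / 2 ^ S.card| ≤ (1 / 100000 : ℝ) * n then
        (Sum.inl ⟨G, of_pathReg (Hhelper98.EPR.pathReg_of_cnt hn G h)⟩ :
          {G : SimpleGraph (Fin n) // EdgePathRegular G} ⊕ Bad)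
      else Sum.inr ⟨G, h⟩)
    intro G G' h
    dsimp only at h
    split_ifs at h with h3 h4 h4
    · have := Sum.inl_injective h
      exact congrArg Subtype.val this
    · have := Sum.inr_injective h
      exact congrArg Subtype.val this
  rw [Nat.card_sum, Hhelper98.EPR.card_graph] at h2
  have h3 : (2 : ℝ) ^ n.choose 2
      ≤ (Nat.card {G : SimpleGraph (Fin n) // EdgePathRegular G} : ℝ) + Nat.card Bad := by
    exact_mod_cast h2
  nlinarith

/-- Almost all graphs are edge-path-regular; for `n ≥ 10 ^ 6` the exceptional fraction is at most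
`384 n ^ 5 exp (- (n - 5) / (16 * 10 ^ 10))`. -/
theorem result :
    (∀ n : ℕ, 1000000 ≤ n →
      1 - fraction n ≤ 384 * (n : ℝ) ^ 5 * Real.exp (- ((n - 5 : ℝ) / (16 * 10 ^ 10)))) ∧
    Tendsto fraction atTop (nhds 1) := by
  constructor
  · intro n hn
    have h1 := lower hn
    have h2 : (n - 5 : ℝ) * (1 / 200000) ^ 2 / 4 = (n - 5 : ℝ) / (16 * 10 ^ 10) := by ring
    rw [h2] at h1
    linarith
  · have hlim : Tendsto (fun n : ℕ =>
        1 - 384 * (n : ℝ) ^ 5 * Real.exp (- ((n - 5 : ℝ) * (1 / 200000) ^ 2 / 4))) atTop (nhds 1) := by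
      have := Hhelper98.EPR.tend.const_sub 1
      simpa using this
    refine tendsto_of_tendsto_of_tendsto_of_le_of_le' hlim tendsto_const_nhds ?_
      (Eventually.of_forall fraction_le_one)
    filter_upwards [eventually_ge_atTop 1000000] with n hn
    exact lower hn

end Pool.Agent.Results.MP_3e5c62_pr.MultigraphPartition
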